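import Pool.Agent.K3h35.NX.Stm
import Pool.Agent.K3h3.GAH.T1

/-!
# Brick X4: the mass is determined by the growth of the means
-/

set_option autoImplicit false
open MeasureTheory Filter Topology Set Metric

namespace Pool.Agent.K3h25.NX

open Pool.Agent.H314.Dir Pool.Agent.K3h35.GS Pool.Agent.K3h35.NX Pool.Agent.K3h3.GAH

/-- the constant in dimension two -/
theorem cst_two : cst 2 = Real.pi / 4 := by
  have h := integral_fun_norm_addHaar (volume : Measure (Eu 2))
    (fun r : ℝ => (max 0 (1 - r ^ 2)) ^ 3)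
  have h0 : cst 2 = ∫ x : Eu 2, (fun r : ℝ => (max 0 (1 - r ^ 2)) ^ 3) ‖x‖ := rfl
  rw [h0, h]
  have hd : Module.finrank ℝ (Eu 2) = 2 := by simp
  have hb : (volume : Measure (Eu 2)).real (ball 0 1) = Real.pi := by
    rw [Measure.real, EuclideanSpace.volume_ball_fin_two]
    simp [ENNReal.toReal_ofReal Real.pi_pos.le]
  rw [hd, hb]
  have hi : ∫ y in Ioi (0 : ℝ), y ^ (2 - 1) • (max 0 (1 - y ^ 2)) ^ 3 = 1 / 8 := by
    have e1 : ∫ y in Ioi (0 : ℝ), y ^ (2 - 1) • (max 0 (1 - y ^ 2)) ^ 3 =
        ∫ y in Ioc (0 : ℝ) 1, y * (1 - y ^ 2) ^ 3 := by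
      rw [← Ioc_union_Ioi_eq_Ioi (zero_le_one (α := ℝ)),
        setIntegral_union (Ioc_disjoint_Ioi le_rfl) measurableSet_Ioi]
      · have e2 : ∫ y in Ioi (1 : ℝ), y ^ (2 - 1) • (max 0 (1 - y ^ 2)) ^ 3 = 0 := by
          rw [setIntegral_congr_fun (g := fun _ => (0 : ℝ)) measurableSet_Ioi]
          · simp
          · intro y hy
            have : (1 : ℝ) < y := hy
            simp only
            rw [max_eq_left (by nlinarith)]
            simp
        rw [e2, add_zero]
        refine setIntegral_congr_fun measurableSet_Ioc fun y hy => ?_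
        simp only [smul_eq_mul]
        rw [max_eq_right (by nlinarith [hy.1, hy.2])]
        norm_num
      · refine (Continuous.integrableOn_Ioc (by fun_prop))
      · refine (integrableOn_zero).congr_fun (fun y hy => ?_) measurableSet_Ioi
        have : (1 : ℝ) < y := hy
        simp only
        rw [max_eq_left (by nlinarith)]
        simp
    rw [e1, ← intervalIntegral.integral_of_le zero_le_one]
    have h2 : ∀ y ∈ uIcc (0 : ℝ) 1,
        HasDerivAt (fun y : ℝ => -(1 - y ^ 2) ^ 4 / 8) (y * (1 - y ^ 2) ^ 3) y := by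
      intro y _
      have h3 := (((hasDerivAt_id y).pow 2).const_sub 1).pow 4
      have h4 := (h3.neg).div_const 8
      refine h4.congr_deriv ?_
      simp only [id, Pi.pow_apply]
      ring
    rw [intervalIntegral.integral_eq_sub_of_hasDerivAt h2
      ((by fun_prop : Continuous fun y : ℝ => y * (1 - y ^ 2) ^ 3).intervalIntegrable _ _)]
    norm_num
  rw [hi]
  simp
  ring

theorem sig_zero : sig (0 : Eu 2) = 1 / (2 * Real.pi) := by
  unfold sig
  rw [cst_two]
  have := Real.pi_ne_zero
  field_simp
  norm_num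

variable {f : Eu 2 → ℝ} {D : ℝ}

theorem J_zero_eq {s : ℝ} (hs : 0 < s) :
    s ^ 2 * J sig f s 0 = ∫ t, f t * sig (s⁻¹ • t) := by
  rw [J_eq hs, ← mul_assoc, mul_inv_cancel₀ (by positivity), one_mul]
  congr 1
  funext t
  simp

/-- the averages at large scale -/
theorem tendsto_J (hf : Integrable f) :
    Tendsto (fun s : ℝ => s ^ 2 * J sig f s 0) atTop (𝓝 ((1 / (2 * Real.pi)) * ∫ t, f t)) := by
  obtain ⟨M, hM0, hM⟩ := exists_sig_bound
  have h1 : Tendsto (fun s : ℝ => ∫ t, f t * sig (s⁻¹ • t)) atTop (𝓝 (∫ t, f t * sig (0 : Eu 2))) := by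
    refine tendsto_integral_filter_of_dominated_convergence (fun t => |f t| * M) ?_ ?_ ?_ ?_
    · refine Eventually.of_forall fun s => ?_
      refine hf.aestronglyMeasurable.mul ?_
      exact ((contDiff_sig (d := 2)).continuous.comp (by fun_prop)).aestronglyMeasurable
    · refine Eventually.of_forall fun s => Eventually.of_forall fun t => ?_
      rw [Real.norm_eq_abs, abs_mul]
      exact mul_le_mul_of_nonneg_left (hM _) (abs_nonneg _)
    · exact hf.abs.mul_const M
    · refine Eventually.of_forall fun t => ?_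
      refine Tendsto.const_mul _ ?_
      have h2 : Tendsto (fun s : ℝ => s⁻¹ • t) atTop (𝓝 ((0 : ℝ) • t)) :=
        tendsto_inv_atTop_zero.smul_const t
      rw [zero_smul] at h2
      exact ((contDiff_sig (d := 2)).continuous.tendsto 0).comp h2
  rw [integral_mul_const, sig_zero, mul_comm] at h1
  refine h1.congr' ?_
  filter_upwards [eventually_gt_atTop 0] with s hs
  exact (J_zero_eq hs).symm

theorem intervalIntegrable_phi (hb : BM f D) (a b : ℝ) :
    IntervalIntegrable (fun s : ℝ => s * J sig f s 0) volume a b := by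
  have hw : Continuous (fun s : ℝ => (1 - 0 * s ^ 2) * s) := by fun_prop
  have i1 := hb.intervalIntegrable (κ := (sig : Eu 2 → ℝ)) contDiff_sig.continuous
    hasCompactSupport_sig hw a b 0
  have e : (fun s : ℝ => s * J sig f s 0) = fun s : ℝ => ((1 - 0 * s ^ 2) * s) • J sig f s 0 := by
    funext s
    simp
  rw [e]
  exact i1

/-- averages of the logarithm -/
theorem tendsto_log : Tendsto (fun R : ℝ =>
    (∫ y : Eu 2, rho y * Real.log (1 + R ^ 2 * ‖y‖ ^ 2)) / Real.log R) atTop (𝓝 2) := by
  have h1 : Tendsto (fun R : ℝ => ∫ y : Eu 2, rho y * (Real.log (1 + R ^ 2 * ‖y‖ ^ 2) / Real.log R))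
      atTop (𝓝 (∫ y : Eu 2, rho y * 2)) := by
    refine tendsto_integral_filter_of_dominated_convergence (fun y => rho y * 3) ?_ ?_ ?_ ?_
    · refine Eventually.of_forall fun R => ?_
      refine integrable_rho.aestronglyMeasurable.mul ?_
      refine (Measurable.div_const (Real.measurable_log.comp (by fun_prop)) _).aestronglyMeasurable
    · filter_upwards [eventually_ge_atTop 2] with R hR
      refine Eventually.of_forall fun y => ?_
      rw [norm_mul, Real.norm_eq_abs, Real.norm_eq_abs, abs_of_nonneg (rho_nonneg y)]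
      rcases le_or_gt 1 ‖y‖ with hy | hy
      · rw [rho_eq_zero hy]; simp
      refine mul_le_mul_of_nonneg_left ?_ (rho_nonneg y)
      have hl : 0 < Real.log R := Real.log_pos (by linarith)
      have h0 : 0 ≤ Real.log (1 + R ^ 2 * ‖y‖ ^ 2) := Real.log_nonneg (by nlinarith [sq_nonneg (R * ‖y‖)])
      rw [abs_of_nonneg (div_nonneg h0 hl.le), div_le_iff₀ hl]
      have h3 : Real.log (1 + R ^ 2 * ‖y‖ ^ 2) ≤ Real.log (R ^ 3) := by
        refine Real.log_le_log (by positivity) ?_
        have : ‖y‖ ^ 2 ≤ 1 := by nlinarith [norm_nonneg y]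
        nlinarith [mul_le_mul_of_nonneg_left this (sq_nonneg R), mul_pos (by linarith : (0:ℝ) < R) (by linarith : (0:ℝ) < R)]
      rw [Real.log_pow] at h3
      push_cast at h3
      exact h3
    · exact integrable_rho.mul_const 3
    · have hne : ∀ᵐ y : Eu 2, y ≠ 0 := by
        refine (Measure.ae_ne volume 0)
      filter_upwards [hne] with y hy
      refine Tendsto.const_mul _ ?_
      have hy0 : 0 < ‖y‖ := norm_pos_iff.mpr hy
      -- log(1+R²|y|²) = 2 log R + log (R⁻² + |y|²)
      have h2 : Tendsto (fun R : ℝ => 2 + Real.log ((R ^ 2)⁻¹ + ‖y‖ ^ 2) / Real.log R) atTop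
          (𝓝 (2 + 0)) := by
        refine tendsto_const_nhds.add ?_
        have h3 : Tendsto (fun R : ℝ => Real.log ((R ^ 2)⁻¹ + ‖y‖ ^ 2)) atTop
            (𝓝 (Real.log (0 + ‖y‖ ^ 2))) := by
          refine Tendsto.log ?_ (by positivity)
          refine Tendsto.add ?_ tendsto_const_nhds
          exact (tendsto_inv_atTop_zero).comp (tendsto_pow_atTop (by norm_num))
        exact h3.div_atTop Real.tendsto_log_atTop
      rw [add_zero] at h2
      refine h2.congr' ?_
      filter_upwards [eventually_ge_atTop 2] with R hR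
      have hR0 : (0 : ℝ) < R := by linarith
      have hl : 0 < Real.log R := Real.log_pos (by linarith)
      have e : 1 + R ^ 2 * ‖y‖ ^ 2 = R ^ 2 * ((R ^ 2)⁻¹ + ‖y‖ ^ 2) := by
        field_simp
      rw [e, Real.log_mul (by positivity) (by positivity), Real.log_pow]
      push_cast
      field_simp
  rw [integral_mul_const, integral_rho, one_mul] at h1
  refine h1.congr fun R => ?_
  rw [← integral_div]
  congr 1
  funext y
  ring

/-- `log (1 + log (1 + R²)) / log R → 0` -/
theorem tendsto_loglog : Tendsto (fun R : ℝ =>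
    Real.log (1 + Real.log (1 + R ^ 2)) / Real.log R) atTop (𝓝 0) := by
  -- bounded by `log (4 log R) / log R` for large `R`
  have h1 : Tendsto (fun x : ℝ => Real.log (4 * x) / x) atTop (𝓝 0) := by
    have h2 : Tendsto (fun x : ℝ => Real.log 4 / x + Real.log x / x) atTop (𝓝 (0 + 0)) := by
      refine Tendsto.add (tendsto_const_nhds.div_atTop tendsto_id) ?_
      have := Real.isLittleO_log_id_atTop.tendsto_div_nhds_zero
      exact this
    rw [add_zero] at h2
    refine h2.congr' ?_
    filter_upwards [eventually_gt_atTop 0] with x hx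
    rw [Real.log_mul (by norm_num) hx.ne', add_div]
  have h3 := h1.comp Real.tendsto_log_atTop
  refine squeeze_zero' ?_ ?_ h3
  · filter_upwards [eventually_ge_atTop 2] with R hR
    have hl : 0 < Real.log R := Real.log_pos (by linarith)
    refine div_nonneg (Real.log_nonneg ?_) hl.le
    have : 0 ≤ Real.log (1 + R ^ 2) := Real.log_nonneg (by nlinarith [sq_nonneg R])
    linarith
  · filter_upwards [eventually_ge_atTop 3] with R hR
    have hR0 : (0 : ℝ) < R := by linarith
    have hl1 : 1 ≤ Real.log R := by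
      rw [Real.le_log_iff_exp_le hR0]
      exact (Real.exp_one_lt_d9.le.trans (by norm_num)).trans hR
    have hl : 0 < Real.log R := by linarith
    simp only [Function.comp]
    refine div_le_div_of_nonneg_right ?_ hl.le
    have h4 : Real.log (1 + R ^ 2) ≤ 3 * Real.log R := by
      have : Real.log (1 + R ^ 2) ≤ Real.log (R ^ 3) := by
        refine Real.log_le_log (by positivity) ?_
        nlinarith [mul_pos hR0 hR0]
      rw [Real.log_pow] at this
      push_cast at this
      exact this
    have h5 : 0 ≤ Real.log (1 + R ^ 2) := Real.log_nonneg (by nlinarith [sq_nonneg R])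
    refine Real.log_le_log (by linarith) ?_
    linarith

theorem t_X4 : St_X4 := by
  intro v f C D N hv hvf hb hf hN hle
  set F := ∫ x, f x with hF
  have hpi := Real.pi_pos
  -- the representation formula at the origin
  have hrep : ∀ R : ℝ, 0 < R → J rho v R 0 = v 0 + ∫ s in (0 : ℝ)..R, s * J sig f s 0 := by
    intro R hR
    have h := rep hv hR 0
    have h2 : ∫ s in (0 : ℝ)..R, s * J sig (fun y => - lap v y) s 0 =
        -∫ s in (0 : ℝ)..R, s * J sig f s 0 := by
      rw [← intervalIntegral.integral_neg]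
      refine intervalIntegral.integral_congr fun s _ => ?_
      simp only [J, smul_eq_mul, hvf]
      rw [← mul_neg, ← integral_neg]
      congr 2
      funext y
      ring
    rw [h2] at h
    linarith
  -- upper bound for the means
  have hup : ∀ R : ℝ, 0 < R → J rho v R 0 ≤ |C| + |C| * Real.log (1 + Real.log (1 + R ^ 2)) -
      N * ∫ y : Eu 2, rho y * Real.log (1 + R ^ 2 * ‖y‖ ^ 2) := by
    intro R hR
    have i1 : Integrable (fun y : Eu 2 => v (0 + R • y) • rho y) := by
      refine (((hv.continuous.comp (by fun_prop)).smul contDiff_rho.continuous)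
        ).integrable_of_hasCompactSupport ?_
      exact hasCompactSupport_rho.smul_left
    have i2 : Integrable (fun y : Eu 2 => rho y * Real.log (1 + R ^ 2 * ‖y‖ ^ 2)) := by
      refine (contDiff_rho.continuous.mul ?_).integrable_of_hasCompactSupport
        hasCompactSupport_rho.mul_right
      refine Continuous.log (by fun_prop) fun y => ?_
      positivity
    have i3 : Integrable (fun y : Eu 2 => rho y * (|C| + |C| * Real.log (1 + Real.log (1 + R ^ 2)))) :=
      integrable_rho.mul_const _
    have e : |C| + |C| * Real.log (1 + Real.log (1 + R ^ 2)) -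
        N * ∫ y : Eu 2, rho y * Real.log (1 + R ^ 2 * ‖y‖ ^ 2) =
        ∫ y : Eu 2, (rho y * (|C| + |C| * Real.log (1 + Real.log (1 + R ^ 2))) -
          N * (rho y * Real.log (1 + R ^ 2 * ‖y‖ ^ 2))) := by
      rw [integral_sub i3 (i2.const_mul N), integral_mul_const, integral_rho, one_mul,
        integral_const_mul]
    rw [e, J]
    refine integral_mono i1 (i3.sub (i2.const_mul N)) fun y => ?_
    simp only [smul_eq_mul, zero_add]
    rcases le_or_gt 1 ‖y‖ with hy | hy
    · rw [rho_eq_zero hy]; simp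
    have hr := rho_nonneg y
    have h1 := hle (R • y)
    have h2 : ‖R • y‖ ^ 2 = R ^ 2 * ‖y‖ ^ 2 := by
      rw [norm_smul, mul_pow, Real.norm_eq_abs, sq_abs]
    rw [h2] at h1
    have h3 : 0 ≤ Real.log (1 + R ^ 2 * ‖y‖ ^ 2) :=
      Real.log_nonneg (by nlinarith [sq_nonneg (R * ‖y‖)])
    have h4 : Real.log (1 + R ^ 2 * ‖y‖ ^ 2) ≤ Real.log (1 + R ^ 2) := by
      refine Real.log_le_log (by positivity) ?_
      have : ‖y‖ ^ 2 ≤ 1 := by nlinarith [norm_nonneg y]
      nlinarith [mul_le_mul_of_nonneg_left this (sq_nonneg R)]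
    have h5 : 0 ≤ Real.log (1 + Real.log (1 + R ^ 2 * ‖y‖ ^ 2)) := Real.log_nonneg (by linarith)
    have h6 : Real.log (1 + Real.log (1 + R ^ 2 * ‖y‖ ^ 2)) ≤ Real.log (1 + Real.log (1 + R ^ 2)) :=
      Real.log_le_log (by linarith) (by linarith)
    have h7 : C * Real.log (1 + Real.log (1 + R ^ 2 * ‖y‖ ^ 2)) ≤
        |C| * Real.log (1 + Real.log (1 + R ^ 2)) :=
      (mul_le_mul_of_nonneg_right (le_abs_self C) h5).trans
        (mul_le_mul_of_nonneg_left h6 (abs_nonneg C))
    have h8 : v (R • y) ≤ (|C| + |C| * Real.log (1 + Real.log (1 + R ^ 2))) -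
        N * Real.log (1 + R ^ 2 * ‖y‖ ^ 2) := by
      linarith [le_abs_self C]
    calc v (R • y) * rho y ≤ ((|C| + |C| * Real.log (1 + Real.log (1 + R ^ 2))) -
        N * Real.log (1 + R ^ 2 * ‖y‖ ^ 2)) * rho y := mul_le_mul_of_nonneg_right h8 hr
      _ = _ := by ring
  -- main inequality
  suffices hδ : ∀ δ : ℝ, 0 < δ → (1 / (2 * Real.pi)) * F - δ ≤ -(2 * N) by
    have h1 : (1 / (2 * Real.pi)) * F ≤ -(2 * N) := by
      refine le_of_forall_pos_le_add fun δ hδ0 => ?_
      linarith [hδ δ hδ0]
    have h2 : (2 * Real.pi) * ((1 / (2 * Real.pi)) * F) ≤ (2 * Real.pi) * (-(2 * N)) :=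
      mul_le_mul_of_nonneg_left h1 (by positivity)
    rw [← mul_assoc, mul_one_div_cancel (by positivity), one_mul] at h2
    linarith
  intro δ hδ0
  set q := (1 / (2 * Real.pi)) * F - δ with hq
  obtain ⟨S, hS1, hS⟩ : ∃ S : ℝ, 1 ≤ S ∧ ∀ s, S ≤ s → q ≤ s ^ 2 * J sig f s 0 := by
    have h1 := (tendsto_J hf).eventually (lt_mem_nhds (show q < (1 / (2 * Real.pi)) * F by linarith))
    obtain ⟨S0, hS0⟩ := eventually_atTop.mp h1
    exact ⟨max 1 S0, le_max_left _ _, fun s hs => (hS0 s ((le_max_right _ _).trans hs)).le⟩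
  have hS0 : 0 < S := by linarith
  set K := v 0 + ∫ s in (0 : ℝ)..S, s * J sig f s 0 with hK
  have hlow : ∀ R : ℝ, S ≤ R → K + q * (Real.log R - Real.log S) ≤ J rho v R 0 := by
    intro R hR
    have hR0 : 0 < R := by linarith
    rw [hrep R hR0, ← intervalIntegral.integral_add_adjacent_intervals
      (intervalIntegrable_phi hb 0 S) (intervalIntegrable_phi hb S R)]
    have h1 : q * (Real.log R - Real.log S) ≤ ∫ s in S..R, s * J sig f s 0 := by
      have e : q * (Real.log R - Real.log S) = ∫ s in S..R, q * s⁻¹ := by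
        rw [intervalIntegral.integral_const_mul, integral_inv_of_pos hS0 hR0,
          Real.log_div hR0.ne' hS0.ne']
      rw [e]
      refine intervalIntegral.integral_mono_on hR ?_ (intervalIntegrable_phi hb S R) ?_
      · refine IntervalIntegrable.const_mul (ContinuousOn.intervalIntegrable ?_) _
        refine continuousOn_inv₀.mono fun s hs => ?_
        rw [uIcc_of_le hR] at hs
        exact (hS0.trans_le hs.1).ne'
      · intro s hs
        have hs0 : 0 < s := hS0.trans_le hs.1
        have h2 := hS s hs.1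
        have h3 := mul_le_mul_of_nonneg_left h2 (inv_nonneg.mpr hs0.le)
        calc q * s⁻¹ = s⁻¹ * q := mul_comm _ _
          _ ≤ s⁻¹ * (s ^ 2 * J sig f s 0) := h3
          _ = s * J sig f s 0 := by field_simp
    linarith
  -- the limit
  have hL : Tendsto (fun R : ℝ => (K + q * (Real.log R - Real.log S)) / Real.log R) atTop (𝓝 q) := by
    have h1 : Tendsto (fun R : ℝ => (K - q * Real.log S) / Real.log R + q) atTop (𝓝 (0 + q)) :=
      (tendsto_const_nhds.div_atTop Real.tendsto_log_atTop).add tendsto_const_nhds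
    rw [zero_add] at h1
    refine h1.congr' ?_
    filter_upwards [eventually_ge_atTop 2] with R hR
    have hl : 0 < Real.log R := Real.log_pos (by linarith)
    field_simp
    ring
  have hU : Tendsto (fun R : ℝ => (|C| + |C| * Real.log (1 + Real.log (1 + R ^ 2)) -
      N * ∫ y : Eu 2, rho y * Real.log (1 + R ^ 2 * ‖y‖ ^ 2)) / Real.log R) atTop
      (𝓝 (-(2 * N))) := by
    have h1 : Tendsto (fun R : ℝ => |C| / Real.log R +
        |C| * (Real.log (1 + Real.log (1 + R ^ 2)) / Real.log R) -
        N * ((∫ y : Eu 2, rho y * Real.log (1 + R ^ 2 * ‖y‖ ^ 2)) / Real.log R)) atTop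
        (𝓝 (0 + |C| * 0 - N * 2)) :=
      ((tendsto_const_nhds.div_atTop Real.tendsto_log_atTop).add
        (tendsto_loglog.const_mul _)).sub (tendsto_log.const_mul _)
    have e : 0 + |C| * 0 - N * 2 = -(2 * N) := by ring
    rw [e] at h1
    refine h1.congr fun R => ?_
    ring
  refine le_of_tendsto_of_tendsto hL hU ?_
  filter_upwards [eventually_ge_atTop (max 2 S)] with R hR
  have hR2 : 2 ≤ R := (le_max_left _ _).trans hR
  have hRS : S ≤ R := (le_max_right _ _).trans hR
  have hl : 0 < Real.log R := Real.log_pos (by linarith)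
  exact div_le_div_of_nonneg_right ((hlow R hRS).trans (hup R (by linarith))) hl.le

end Pool.Agent.K3h25.NX
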